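import Pool.Agent.Q93.DiagCert.Defs
import Pool.Agent.Q93.DiagCert.Main

/-!
A normalized diagonal holomorphic kernel `k = (1 - h) s` on the unit disc `Ω = Ω¹_ϑ` with a
non-diagonal holomorphic complete Pick kernel `s` normalized at `0`.

The example: `k = 1 + x / (2 (1 - x))`, `x = z w̄`, is a complete Pick kernel with
`ϑ(x) = x / (2 - x)`; take `h(z,w) = (z + z²) conj (w + w²) / 12` and `s = k / (1 - h)`.
-/

set_option autoImplicit false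

namespace Pool.Agent.Results.MP_72b8ed_an.NondiagonalFactor

open Q93.DiagCert
open scoped ComplexConjugate

theorem result : ∃ (Ω : Set ℂ) (k h s : ℂ → ℂ → ℂ) (c ϑ : ℕ → ℝ),
    IsOpen Ω ∧ IsConnected Ω ∧ (0 : ℂ) ∈ Ω ∧
    IsHolomorphicKernel Ω k ∧ IsDiagonalWith k c ∧ c 0 = 1 ∧
    IsMasterCertificate c ϑ ∧ Omega1 ϑ ⊆ Ω ∧
    IsKernel Ω h ∧ IsHolomorphicKernel Ω s ∧ IsNormalizedCP Ω s ∧
    (∀ z ∈ Ω, ∀ w ∈ Ω, k z w = (1 - h z w) * s z w) ∧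
    (¬ ∃ c' : ℕ → ℝ, IsDiagonalWith s c') ∧
    ¬ ∃ (c' : ℕ → ℂ) (r : ℝ), 0 < r ∧ ∀ z w : ℂ, ‖z‖ < r → ‖w‖ < r →
      HasSum (fun a => c' a * z ^ a * conj w ^ a) (s z w) := main

end Pool.Agent.Results.MP_72b8ed_an.NondiagonalFactor
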